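import Mathlib
import Pool.Agent.H177R3.FU3

set_option autoImplicit false

namespace Pool.Agent.Results.MP_fc6768_gt.MetrizableFactor

open Pool.Agent.H177R3.FU

theorem result (κ : Cardinal.{0}) (hκ : κ.IsRegular) (X : Set Pw) (hX : FinUnbMin κ X) :
    -- (1) metrizable `Y`, `κ ≤ pr(S₁(Γ, Ω))`
    (LePr κ → ∀ (Y : Type) [TopologicalSpace Y] [TopologicalSpace.MetrizableSpace Y] [Infinite Y],
      S1OG Y → S1GO ((X ∪ FinS : Set Pw) × Y)) ∧
    -- (2) all Tychonoff `Y` for which the products with small subsets of `X` are fine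
    (∀ (Y : Type) [TopologicalSpace Y] [T35Space Y], S1OG Y →
      (∀ S : Set Pw, S ⊆ X → Cardinal.mk S < κ → S1GO (S × Y)) →
      S1GO ((X ∪ FinS : Set Pw) × Y)) ∧
    -- (3) all Tychonoff `Y`, `κ ≤ cov(M)`
    (LeCovM κ → ∀ (Y : Type) [TopologicalSpace Y] [T35Space Y], S1OG Y →
      S1GO ((X ∪ FinS : Set Pw) × Y)) := by
  have hX' := finUnb_of_min hX
  refine ⟨fun hc Y _ _ _ hY => main_metrizable hY hκ hc hX',
    fun Y _ _ hY hS => main (gammaProp_of_S1OG hY) hκ hX' fun S hSX hSκ =>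
      HS_of_S1GO (hS S hSX hSκ),
    fun hc Y _ _ hY => main_covM (gammaProp_of_S1OG hY) hκ hc hX'⟩

end Pool.Agent.Results.MP_fc6768_gt.MetrizableFactor
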